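import Pool.Agent.Q237.SX.Struct

/-!
# The Eisenstein series of weight `p - 1`; job EIS
-/

set_option autoImplicit false

noncomputable section

open UpperHalfPlane hiding I
open ModularForm MatrixGroups Filter Topology Function Real Complex EisensteinSeries
open scoped Manifold
open PowerSeries (coeff)

namespace Pool.Agent.Q237.SX

open Pool.Agent.Q279.SC

variable {p : ℕ} [hp : Fact p.Prime]

/-- `p B_{p-1} ≡ -1` -/
lemma bern (h5 : 5 ≤ p) : ∃ t : ℤ_[p], (p : ℚ_[p]) * ((bernoulli (p - 1) : ℚ) : ℚ_[p]) =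
    -1 + (p : ℚ_[p]) * (t : ℚ_[p]) := by
  obtain ⟨k, hk⟩ : ∃ k, p - 1 = 2 * k := by
    have h1 := hp.out.eq_two_or_odd
    exact ⟨(p - 1) / 2, by omega⟩
  obtain ⟨n, hn⟩ := Bernoulli.vonStaudt_clausen k
  rw [← hk] at hn
  set S := (Finset.range (p - 1 + 2)).filter fun q => q.Prime ∧ (q - 1) ∣ p - 1 with hS
  have hpS : p ∈ S := by
    rw [hS, Finset.mem_filter, Finset.mem_range]
    exact ⟨by omega, hp.out, dvd_rfl⟩
  -- the other summands are integral
  have hint : ∀ q ∈ S.erase p, ‖(((1 : ℚ) / q : ℚ) : ℚ_[p])‖ ≤ 1 := by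
    intro q hq
    rw [Finset.mem_erase, hS, Finset.mem_filter] at hq
    have h1 : ‖((q : ℕ) : ℚ_[p])‖ = 1 := by
      rw [Padic.norm_natCast_eq_one_iff]
      exact (Nat.coprime_primes hp.out hq.2.2.1).2 (Ne.symm hq.1)
    rw [Rat.cast_div, Rat.cast_one, Rat.cast_natCast, norm_div, norm_one, h1, div_one]
  have hsum : ‖((∑ q ∈ S.erase p, (1 : ℚ) / q : ℚ) : ℚ_[p])‖ ≤ 1 := by
    rw [Rat.cast_sum]
    exact IsUltrametricDist.norm_sum_le_of_forall_le_of_nonneg zero_le_one hint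
  set s : ℤ_[p] := ⟨_, hsum⟩ with hs
  refine ⟨(n : ℤ_[p]) - s, ?_⟩
  have h1 := Finset.add_sum_erase S (fun q : ℕ => (1 : ℚ) / q) hpS
  rw [← h1] at hn
  have hp0 : (p : ℚ_[p]) ≠ 0 := by exact_mod_cast hp.out.ne_zero
  have h2 : ((n : ℤ) : ℚ_[p]) = ((bernoulli (p - 1) : ℚ) : ℚ_[p]) + (1 / (p : ℚ_[p]) +
      ((∑ q ∈ S.erase p, (1 : ℚ) / q : ℚ) : ℚ_[p])) := by
    have h3 := congrArg (fun x : ℚ => (x : ℚ_[p])) hn
    rw [Rat.cast_add, Rat.cast_add, Rat.cast_div, Rat.cast_one, Rat.cast_natCast,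
      Rat.cast_intCast] at h3
    exact h3
  have h4 : ((s : ℤ_[p]) : ℚ_[p]) = ((∑ q ∈ S.erase p, (1 : ℚ) / q : ℚ) : ℚ_[p]) := rfl
  rw [PadicInt.coe_sub, PadicInt.coe_intCast, h4, h2]
  field_simp
  ring

/-- divisor sums modulo `p` -/
lemma div_sum (h5 : 5 ≤ p) {n : ℕ} (hn : n ≠ 0) :
    (n : ZMod p) * ((ArithmeticFunction.sigma (p - 2) n : ℕ) : ZMod p) =
      ((ArithmeticFunction.sigma 1 n : ℕ) : ZMod p) -
        if p ∣ n then ((ArithmeticFunction.sigma 1 (n / p) : ℕ) : ZMod p) else 0 := by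
  have h1 : (n : ZMod p) * ((ArithmeticFunction.sigma (p - 2) n : ℕ) : ZMod p) =
      ∑ d ∈ n.divisors, if p ∣ d then (0 : ZMod p) else ((n / d : ℕ) : ZMod p) := by
    rw [ArithmeticFunction.sigma_apply, Nat.cast_sum, Finset.mul_sum]
    refine Finset.sum_congr rfl fun d hd => ?_
    have hd' := Nat.dvd_of_mem_divisors hd
    have h2 : (n : ZMod p) = ((n / d : ℕ) : ZMod p) * (d : ZMod p) := by
      rw [← Nat.cast_mul, Nat.div_mul_cancel hd']
    have h3 : (d : ZMod p) * ((d ^ (p - 2) : ℕ) : ZMod p) = (d : ZMod p) ^ (p - 1) := by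
      rw [Nat.cast_pow, ← pow_succ']
      congr 1
      omega
    rw [h2, mul_assoc, h3]
    split_ifs with h
    · rw [(ZMod.natCast_eq_zero_iff d p).2 h, zero_pow (by omega), mul_zero]
    · rw [ZMod.pow_card_sub_one_eq_one (fun h' => h ((ZMod.natCast_eq_zero_iff d p).1 h')),
        mul_one]
  have h2 : ∑ d ∈ n.divisors, (if p ∣ d then (0 : ZMod p) else ((n / d : ℕ) : ZMod p)) =
      ∑ d ∈ n.divisors, ((n / d : ℕ) : ZMod p) -
        ∑ d ∈ n.divisors, if p ∣ d then ((n / d : ℕ) : ZMod p) else 0 := by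
    rw [← Finset.sum_sub_distrib]
    refine Finset.sum_congr rfl fun d _ => ?_
    split_ifs
    · rw [sub_self]
    · rw [sub_zero]
  have h3 : ∑ d ∈ n.divisors, ((n / d : ℕ) : ZMod p) =
      ((ArithmeticFunction.sigma 1 n : ℕ) : ZMod p) := by
    rw [ArithmeticFunction.sigma_one_apply, Nat.cast_sum]
    exact Nat.sum_div_divisors n (fun d => ((d : ℕ) : ZMod p))
  rw [h1, h2, h3]
  congr 1
  split_ifs with hpn
  · obtain ⟨m, rfl⟩ := hpn
    have hp0 := hp.out.pos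
    have hm : m ≠ 0 := by
      rintro rfl
      exact hn (mul_zero p)
    rw [Nat.mul_div_cancel_left m hp0, ArithmeticFunction.sigma_one_apply, Nat.cast_sum,
      ← Finset.sum_filter]
    have h4 : (p * m).divisors.filter (fun d => p ∣ d) = m.divisors.image (fun d => p * d) := by
      ext d
      rw [Finset.mem_filter, Nat.mem_divisors, Finset.mem_image]
      constructor
      · rintro ⟨⟨h5, h6⟩, ⟨e, rfl⟩⟩
        exact ⟨e, Nat.mem_divisors.2 ⟨Nat.dvd_of_mul_dvd_mul_left hp0 h5, hm⟩, rfl⟩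
      · rintro ⟨e, he, rfl⟩
        exact ⟨⟨Nat.mul_dvd_mul_left p (Nat.dvd_of_mem_divisors he), hn⟩, dvd_mul_right p e⟩
    rw [h4, Finset.sum_image (fun a _ b _ h => Nat.eq_of_mul_eq_mul_left hp0 h)]
    have h7 : ∀ e ∈ m.divisors, ((p * m / (p * e) : ℕ) : ZMod p) = ((m / e : ℕ) : ZMod p) := by
      intro e _
      rw [Nat.mul_div_mul_left _ _ hp0]
    rw [Finset.sum_congr rfl h7]
    exact Nat.sum_div_divisors m (fun d => ((d : ℕ) : ZMod p))
  · refine Finset.sum_eq_zero fun d hd => ?_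
    rw [if_neg fun h => hpn (h.trans (Nat.dvd_of_mem_divisors hd))]

lemma unit_v (t : ℤ_[p]) : ∃ v : ℤ_[p], (-1 + (p : ℤ_[p]) * t) * v = 1 := by
  have h1 : IsUnit (-1 + (p : ℤ_[p]) * t) := by
    by_contra h
    rw [PadicInt.not_isUnit_iff] at h
    have h2 : ‖(p : ℤ_[p]) * t‖ < 1 := by
      rw [norm_mul]
      have h3 : ‖((p : ℕ) : ℤ_[p])‖ < 1 := PadicInt.norm_natCast_lt_one_iff.2 dvd_rfl
      calc ‖(p : ℤ_[p])‖ * ‖t‖ ≤ ‖(p : ℤ_[p])‖ * 1 :=
            mul_le_mul_of_nonneg_left (PadicInt.norm_le_one t) (norm_nonneg _)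
        _ < 1 := by rw [mul_one]; exact h3
    have h4 : (1 : ℤ_[p]) = (p : ℤ_[p]) * t + -(-1 + (p : ℤ_[p]) * t) := by ring
    have h5 : ‖(1 : ℤ_[p])‖ < 1 := by
      rw [h4]
      refine lt_of_le_of_lt (PadicInt.nonarchimedean _ _) (max_lt h2 ?_)
      rw [norm_neg]
      exact h
    rw [norm_one] at h5
    exact lt_irrefl _ h5
  exact h1.exists_right_inv

lemma coeff_q2R (R : Type) [CommRing R] (m : ℕ) : coeff m (q2 R) =
    if m = 0 then 1 else -24 * ((ArithmeticFunction.sigma 1 m : ℕ) : R) := by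
  unfold q2 z2
  rw [PowerSeries.coeff_map, map_sub, PowerSeries.coeff_one]
  have h := coeff_nat_mul 24 m zS
  rw [Nat.cast_ofNat] at h
  rw [h]
  unfold zS
  rw [PowerSeries.coeff_mk]
  rcases m with _ | m
  · simp
  · simp [ArithmeticFunction.sigma_apply]

/-- Job EIS (unconditional) -/
theorem eis : Eis := by
  intro p _ h5
  obtain ⟨t, ht⟩ := bern (p := p) h5
  obtain ⟨v, hv⟩ := unit_v (p := p) t
  have hk : 3 ≤ p - 1 := by omega
  have hk2 : Even (p - 1) := by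
    have h1 := (Fact.out : p.Prime).eq_two_or_odd
    exact ⟨(p - 1) / 2, by omega⟩
  have hww : ((p - 1 : ℕ) : ℤ) = ((2 * ((p - 1) / 2) : ℕ) : ℤ) := by
    obtain ⟨m, hm⟩ := hk2
    congr 1
    omega
  set c : ℕ → ℚ := fun n => if n = 0 then 1 else
    -(2 * ((p - 1 : ℕ) : ℚ) / bernoulli (p - 1)) * ((ArithmeticFunction.sigma (p - 2) n : ℕ) : ℚ)
    with hc
  set ε : PowerSeries ℤ_[p] := PowerSeries.mk fun n => if n = 0 then 0 else
    -2 * ((p - 1 : ℕ) : ℤ_[p]) * v * ((ArithmeticFunction.sigma (p - 2) n : ℕ) : ℤ_[p]) with hε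
  have hvQ : (-1 + (p : ℚ_[p]) * (t : ℚ_[p])) * (v : ℚ_[p]) = 1 := by
    have h := congrArg (fun x : ℤ_[p] => (x : ℚ_[p])) hv
    simpa using h
  have hB : ((bernoulli (p - 1) : ℚ) : ℚ_[p])⁻¹ = (p : ℚ_[p]) * (v : ℚ_[p]) := by
    rw [← ht] at hvQ
    apply inv_eq_of_mul_eq_one_right
    linear_combination hvQ
  have hcε : ∀ n, ((c n : ℚ) : ℚ_[p]) =
      ((coeff n (1 + (p : PowerSeries ℤ_[p]) * ε) : ℤ_[p]) : ℚ_[p]) := by
    intro n
    rw [map_add, coeff_nat_mul, PowerSeries.coeff_one, hε, PowerSeries.coeff_mk, hc]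
    rcases n with _ | n
    · simp
    · simp only [Nat.add_eq_zero_iff, one_ne_zero, and_false, if_false]
      rw [div_eq_mul_inv]
      have h2 : ((2 : ℤ_[p]) : ℚ_[p]) = 2 := map_ofNat PadicInt.Coe.ringHom 2
      push_cast
      rw [hB, h2]
      ring
  have hcp : ∀ n, ‖((c n : ℚ) : ℚ_[p])‖ ≤ 1 := by
    intro n
    rw [hcε n]
    exact PadicInt.norm_le_one _
  have hcC : ∀ n, (qExpansion 1 (ModularForm.mcast hww (ModularForm.E hk))).coeff n =
      (c n : ℂ) := by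
    intro n
    change (qExpansion 1 (ModularForm.E hk)).coeff n = (c n : ℂ)
    rw [E_qExpansion_coeff hk hk2, hc]
    rcases n with _ | n
    · simp
    · simp only [Nat.add_eq_zero_iff, one_ne_zero, and_false, if_false]
      push_cast
      rfl
  obtain ⟨T, hT1, hT2⟩ := struct p h5 ((p - 1) / 2) _ c hcC hcp
  have hT3 : ev ℤ_[p] T = 1 + (p : PowerSeries ℤ_[p]) * ε := by
    ext n
    exact Subtype.ext ((hT2 n).trans (hcε n))
  refine ⟨T, ε, hT1, hT3, ?_⟩
  have hv1 : PadicInt.toZMod v = (-1 : ZMod p) := by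
    have h := congrArg (PadicInt.toZMod (p := p)) hv
    rw [map_mul, map_add, map_mul, map_neg, map_one, map_natCast, ZMod.natCast_self, zero_mul,
      add_zero] at h
    linear_combination -h
  have hp1 : (((p - 1 : ℕ) : ℕ) : ZMod p) = -1 := by
    have h1 : ((p - 1 + 1 : ℕ) : ZMod p) = 0 := by
      rw [Nat.sub_add_cancel (by omega), ZMod.natCast_self]
    rw [Nat.cast_add, Nat.cast_one] at h1
    linear_combination h1
  ext n
  have h12 := coeff_nat_mul 12 n (th (redS p ε))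
  rw [Nat.cast_ofNat] at h12
  rw [h12, map_sub]
  unfold th fr redS
  rw [PowerSeries.coeff_mk, PowerSeries.coeff_mk, PowerSeries.coeff_map, hε,
    PowerSeries.coeff_mk, coeff_q2R, coeff_q2R]
  rcases Nat.eq_zero_or_pos n with hn | hn
  · subst hn
    simp
  · rw [if_neg hn.ne', if_neg hn.ne', map_mul, map_mul, map_mul, hv1, map_natCast, map_natCast,
      hp1]
    have h2 := div_sum (p := p) h5 hn.ne'
    have h3 : (PadicInt.toZMod (-2 : ℤ_[p]) : ZMod p) = -2 := by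
      rw [map_neg, map_ofNat]
    rw [h3]
    by_cases hpn : p ∣ n
    · have h4 : n / p ≠ 0 := by
        obtain ⟨m, rfl⟩ := hpn
        rw [Nat.mul_div_cancel_left m (Fact.out : p.Prime).pos]
        rintro rfl
        simp at hn
      rw [if_pos hpn] at h2 ⊢
      rw [if_neg h4]
      push_cast
      linear_combination (-24) * h2
    · rw [if_neg hpn] at h2 ⊢
      push_cast
      linear_combination (-24) * h2

theorem jEis : JEis := fun _ => eis

end Pool.Agent.Q237.SX
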