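import Pool.Agent.Q237.SX.Struct

/-!
# Further operations on functions given by a `q`-series
-/

set_option autoImplicit false

noncomputable section

open UpperHalfPlane hiding I
open ModularForm MatrixGroups Filter Topology Function Real Complex EisensteinSeries
open scoped Manifold
open PowerSeries (coeff)

namespace Pool.Agent.Q237.SX

open Pool.Agent.Q279.SC

/-- the parameter `q` -/
abbrev qq (τ : ℍ) : ℂ := Periodic.qParam 1 τ

lemma qq_ne (τ : ℍ) : qq τ ≠ 0 := Periodic.qParam_ne_zero _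

/-- division by `q` -/
theorem HQ.divX {F : ℍ → ℂ} {a : PowerSeries ℂ} (h : HQ F (PowerSeries.X * a)) :
    HQ (fun τ => F τ / qq τ) a := by
  intro τ
  have h1 := (hasSum_nat_add_iff' 1).mpr (h τ)
  rw [Finset.sum_range_one, PowerSeries.coeff_zero_X_mul, zero_smul, sub_zero] at h1
  have h2 := h1.mul_left (qq τ)⁻¹
  have h3 : (fun n => (qq τ)⁻¹ * (coeff (n + 1) (PowerSeries.X * a) •
      Periodic.qParam 1 τ ^ (n + 1))) = fun m => coeff m a • Periodic.qParam 1 τ ^ m := by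
    funext m
    rw [PowerSeries.coeff_succ_X_mul, pow_succ, smul_eq_mul, smul_eq_mul]
    have := qq_ne τ
    unfold qq at *
    field_simp
  rw [h3] at h2
  change HasSum _ (F τ / qq τ)
  rw [div_eq_inv_mul]
  exact h2

/-- the part of positive order, divided by `q` -/
theorem HQ.shift {F : ℍ → ℂ} {a : PowerSeries ℂ} (h : HQ F a) :
    HQ (fun τ => (F τ - coeff 0 a) / qq τ) (PowerSeries.mk fun n => coeff (n + 1) a) := by
  have h1 : a - PowerSeries.C (coeff 0 a) =
      PowerSeries.X * PowerSeries.mk fun n => coeff (n + 1) a := by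
    ext m
    rcases m with _ | m
    · simp
    · rw [PowerSeries.coeff_succ_X_mul, PowerSeries.coeff_mk, map_sub, PowerSeries.coeff_C,
        if_neg (Nat.succ_ne_zero m), sub_zero]
  have h2 := h.sub (HQ.const (coeff 0 a))
  rw [h1] at h2
  exact h2.divX

/-- the value at the cusp -/
theorem HQ.tendsto {F : ℍ → ℂ} {a : PowerSeries ℂ} (h : HQ F a) :
    Tendsto F atImInfty (𝓝 (coeff 0 a)) := by
  have h1 := h.shift.bdd
  have h2 : Tendsto (fun τ : ℍ => qq τ) atImInfty (𝓝 0) := qParam_tendsto_atImInfty one_pos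
  have h3 : Tendsto (fun τ : ℍ => qq τ * ((F τ - coeff 0 a) / qq τ)) atImInfty (𝓝 0) := by
    apply Filter.Tendsto.zero_mul_isBoundedUnder_le h2
    exact h1.isBoundedUnder_le
  have h4 : F = fun τ => coeff 0 a + qq τ * ((F τ - coeff 0 a) / qq τ) := by
    funext τ
    rw [mul_div_cancel₀ _ (qq_ne τ)]
    ring
  have h5 := h3.const_add (coeff 0 a)
  rw [add_zero] at h5
  exact h5.congr fun τ => (congrFun h4 τ).symm

/-- the inverse -/
theorem HQ.inv {F : ℍ → ℂ} {a b : PowerSeries ℂ} (h : HQ F a) (hF : ∀ τ, F τ ≠ 0)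
    (hab : a * b = 1) : HQ (fun τ => (F τ)⁻¹) b := by
  have ha0 : coeff 0 a ≠ 0 := by
    intro h0
    have h1 := congrArg (coeff 0) hab
    rw [coeff0_mul, h0, zero_mul, PowerSeries.coeff_one, if_pos rfl] at h1
    exact zero_ne_one h1
  have hmd : MDiff (fun τ => (F τ)⁻¹) := by
    have h1 := h.mdiff
    rw [UpperHalfPlane.mdifferentiable_iff] at h1 ⊢
    exact h1.inv fun z _ => hF _
  have hbdd : IsBoundedAtImInfty (fun τ => (F τ)⁻¹) := by
    have h1 := h.tendsto.inv₀ ha0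
    exact h1.isBigO_one ℝ
  have hper : Periodic ((fun τ => (F τ)⁻¹) ∘ ofComplex) ((1 : ℝ) : ℂ) := by
    have hT := h.T_inv 0
    intro w
    simp only [Function.comp_apply]
    by_cases hw : 0 < w.im
    · have hw' : 0 < (w + ((1 : ℝ) : ℂ)).im := by simpa using hw
      rw [ofComplex_apply_of_im_pos hw, ofComplex_apply_of_im_pos hw']
      congr 1
      have h2 := h ⟨w, hw⟩
      have h3 := h ⟨w + ((1 : ℝ) : ℂ), hw'⟩
      have h4 : Periodic.qParam 1 (((⟨w + ((1 : ℝ) : ℂ), hw'⟩ : ℍ) : ℂ)) =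
          Periodic.qParam 1 ((⟨w, hw⟩ : ℍ) : ℂ) := by
        change Periodic.qParam 1 (w + ((1 : ℝ) : ℂ)) = Periodic.qParam 1 w
        unfold Periodic.qParam
        have h6 : 2 * (π : ℂ) * I * (w + ((1 : ℝ) : ℂ)) / ((1 : ℝ) : ℂ) =
            2 * π * I * w / ((1 : ℝ) : ℂ) + 2 * π * I := by
          push_cast
          ring
        rw [h6, Complex.exp_add, Complex.exp_two_pi_mul_I, mul_one]
      rw [h4] at h3
      exact h3.unique h2
    · have hw' : ¬ 0 < (w + ((1 : ℝ) : ℂ)).im := by simpa using hw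
      rw [ofComplex_apply_of_im_nonpos (not_lt.1 hw), ofComplex_apply_of_im_nonpos (not_lt.1 hw')]
  have h1 : HQ (fun τ => (F τ)⁻¹) (qExpansion 1 (fun τ => (F τ)⁻¹)) := fun τ =>
    UpperHalfPlane.hasSum_qExpansion one_pos hper hmd hbdd τ
  have h2 := (h.mul h1).unique (HQ.one.congr fun τ => (mul_inv_cancel₀ (hF τ)).symm)
  have h3 : qExpansion 1 (fun τ => (F τ)⁻¹) = b := by
    linear_combination b * h2 - (qExpansion 1 (fun τ => (F τ)⁻¹)) * hab
  rw [h3] at h1
  exact h1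

section points

variable {p : ℕ} (hp : 0 < p)

include hp in
lemma mulP_im (τ : ℍ) : 0 < ((p : ℂ) * τ).im := by
  have h1 := τ.im_pos
  have h2 : (0 : ℝ) < p := by exact_mod_cast hp
  have h3 : ((p : ℂ) * τ).im = p * τ.im := by
    rw [Complex.mul_im, Complex.natCast_re, Complex.natCast_im, zero_mul, add_zero]
    rfl
  rw [h3]
  positivity

include hp in
lemma divP_im (b : ℕ) (τ : ℍ) : 0 < (((τ : ℂ) + b) / p).im := by
  have h1 := τ.im_pos
  have h2 : (0 : ℝ) < p := by exact_mod_cast hp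
  have h3 : (((τ : ℂ) + b) / p).im = τ.im / p := by
    rw [← Complex.ofReal_natCast p, Complex.div_ofReal_im]
    simp
  rw [h3]
  positivity

end points

/-- the point `p τ` -/
def mulP (p : ℕ) [hp : Fact p.Prime] (τ : ℍ) : ℍ := ⟨(p : ℂ) * τ, mulP_im hp.out.pos τ⟩

/-- the point `(τ + b) / p` -/
def divP (p : ℕ) [hp : Fact p.Prime] (b : ℕ) (τ : ℍ) : ℍ :=
  ⟨((τ : ℂ) + b) / p, divP_im hp.out.pos b τ⟩

variable {p : ℕ} [hp : Fact p.Prime]

lemma coe_mulP (τ : ℍ) : ((mulP p τ : ℍ) : ℂ) = (p : ℂ) * τ := rfl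

lemma coe_divP (b : ℕ) (τ : ℍ) : ((divP p b τ : ℍ) : ℂ) = ((τ : ℂ) + b) / p := rfl

lemma qq_eq (τ : ℍ) : qq τ = Complex.exp (2 * π * I * τ) := by
  unfold qq Periodic.qParam
  rw [Complex.ofReal_one, div_one]

lemma qq_mulP (τ : ℍ) : qq (mulP p τ) = qq τ ^ p := by
  rw [qq_eq, qq_eq, coe_mulP, ← Complex.exp_nat_mul]
  congr 1
  ring

/-- `q ^ (1 / p)` -/
def wq (p : ℕ) (τ : ℍ) : ℂ := Complex.exp (2 * π * I * τ / p)

/-- a root of unity -/
def zt (p : ℕ) : ℂ := Complex.exp (2 * π * I / p)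

lemma qq_divP (b : ℕ) (τ : ℍ) : qq (divP p b τ) = wq p τ * zt p ^ b := by
  unfold wq zt
  rw [qq_eq, coe_divP, ← Complex.exp_nat_mul, ← Complex.exp_add]
  congr 1
  ring

lemma wq_pow (τ : ℍ) : wq p τ ^ p = qq τ := by
  unfold wq
  rw [qq_eq, ← Complex.exp_nat_mul]
  congr 1
  have : (p : ℂ) ≠ 0 := by exact_mod_cast hp.out.ne_zero
  field_simp

lemma wq_ne (τ : ℍ) : wq p τ ≠ 0 := Complex.exp_ne_zero _

lemma zt_prim : IsPrimitiveRoot (zt p) p := Complex.isPrimitiveRoot_exp p hp.out.ne_zero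

lemma zt_sum (n : ℕ) : ∑ b ∈ Finset.range p, (zt p ^ b) ^ n = if p ∣ n then (p : ℂ) else 0 := by
  have h1 : ∀ b, (zt p ^ b) ^ n = (zt p ^ n) ^ b := fun b => by rw [← pow_mul, ← pow_mul, mul_comm]
  rw [Finset.sum_congr rfl (fun b _ => h1 b)]
  split_ifs with h
  · rw [(zt_prim.pow_eq_one_iff_dvd n).2 h]
    simp
  · have h2 : zt p ^ n ≠ 1 := fun h3 => h ((zt_prim.pow_eq_one_iff_dvd n).1 h3)
    have h3 : (zt p ^ n) ^ p = 1 := by
      rw [← pow_mul, mul_comm, pow_mul, zt_prim.pow_eq_one, one_pow]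
    have h4 := mul_geom_sum (zt p ^ n) p
    rw [h3, sub_self] at h4
    exact (mul_eq_zero.1 h4).resolve_left (sub_ne_zero.2 h2)

/-- substitution `q ↦ q ^ p` -/
theorem HQ.comp_mulP {F : ℍ → ℂ} {a : PowerSeries ℂ} (h : HQ F a) :
    HQ (fun τ => F (mulP p τ)) (fr p a) := by
  intro τ
  have h1 := h (mulP p τ)
  have hinj : Function.Injective (fun m : ℕ => p * m) :=
    fun a b h => Nat.eq_of_mul_eq_mul_left hp.out.pos h
  have e : (fun n => coeff n (fr p a) • Periodic.qParam 1 (τ : ℂ) ^ n) ∘ (fun m : ℕ => p * m) =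
      fun m => coeff m a • Periodic.qParam 1 ((mulP p τ : ℍ) : ℂ) ^ m := by
    funext m
    have h2 := qq_mulP (p := p) τ
    unfold qq at h2
    rw [Function.comp_apply, h2, ← pow_mul]
    unfold fr
    rw [PowerSeries.coeff_mk, if_pos (dvd_mul_right p m), Nat.mul_div_cancel_left m hp.out.pos]
  rw [← hinj.hasSum_iff, e]
  · exact h1
  · intro n hn
    have h3 : ¬ p ∣ n := by
      rintro ⟨m, rfl⟩
      exact hn ⟨m, rfl⟩
    unfold fr
    rw [PowerSeries.coeff_mk, if_neg h3, zero_smul]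

/-- the operator `U_p` -/
theorem HQ.up {F : ℍ → ℂ} {a : PowerSeries ℂ} (h : HQ F a) :
    HQ (fun τ => ∑ b ∈ Finset.range p, F (divP p b τ))
      (PowerSeries.C (p : ℂ) * PowerSeries.mk fun m => coeff (p * m) a) := by
  intro τ
  have h1 : HasSum (fun n => ∑ b ∈ Finset.range p, coeff n a •
      Periodic.qParam 1 ((divP p b τ : ℍ) : ℂ) ^ n) (∑ b ∈ Finset.range p, F (divP p b τ)) :=
    hasSum_sum fun b _ => h (divP p b τ)
  have e1 : (fun n => ∑ b ∈ Finset.range p, coeff n a •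
      Periodic.qParam 1 ((divP p b τ : ℍ) : ℂ) ^ n) =
      fun n => if p ∣ n then (p : ℂ) * coeff n a * wq p τ ^ n else 0 := by
    funext n
    have h2 : ∀ b ∈ Finset.range p, coeff n a • Periodic.qParam 1 ((divP p b τ : ℍ) : ℂ) ^ n =
        coeff n a * wq p τ ^ n * (zt p ^ b) ^ n := by
      intro b _
      have h3 := qq_divP (p := p) b τ
      unfold qq at h3
      rw [h3, mul_pow, smul_eq_mul]
      ring
    rw [Finset.sum_congr rfl h2, ← Finset.mul_sum, zt_sum]
    split_ifs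
    · ring
    · rw [mul_zero]
  rw [e1] at h1
  have hinj : Function.Injective (fun m : ℕ => p * m) :=
    fun a b h => Nat.eq_of_mul_eq_mul_left hp.out.pos h
  have e2 : (fun m => coeff m (PowerSeries.C (p : ℂ) * PowerSeries.mk fun m => coeff (p * m) a) •
      Periodic.qParam 1 (τ : ℂ) ^ m) =
      (fun n => if p ∣ n then (p : ℂ) * coeff n a * wq p τ ^ n else 0) ∘ (fun m : ℕ => p * m) := by
    funext m
    have h2 := wq_pow (p := p) τ
    unfold qq at h2
    rw [Function.comp_apply, if_pos (dvd_mul_right p m), pow_mul, h2, PowerSeries.coeff_C_mul,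
      PowerSeries.coeff_mk, smul_eq_mul]
  rw [e2, hinj.hasSum_iff]
  · exact h1
  · intro n hn
    have h3 : ¬ p ∣ n := by
      rintro ⟨m, rfl⟩
      exact hn ⟨m, rfl⟩
    simp only [if_neg h3]

lemma inv_sum (τ : ℍ) : ∑ b ∈ Finset.range p, (qq (divP p b τ))⁻¹ = 0 := by
  have h1 : ∀ b ∈ Finset.range p, (qq (divP p b τ))⁻¹ = (wq p τ)⁻¹ * (zt p ^ b) ^ (p - 1) := by
    intro b _
    rw [qq_divP, mul_inv]
    congr 1
    apply inv_eq_of_mul_eq_one_right
    rw [← pow_succ', Nat.sub_add_cancel hp.out.one_lt.le, ← pow_mul, mul_comm, pow_mul,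
      zt_prim.pow_eq_one, one_pow]
  rw [Finset.sum_congr rfl h1, ← Finset.mul_sum, zt_sum, if_neg, mul_zero]
  intro h
  have h2 := Nat.le_of_dvd (by have := hp.out.one_lt; omega) h
  have := hp.out.one_lt
  omega

end Pool.Agent.Q237.SX
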