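import Pool.Agent.Q237.SX.HQ2
import Pool.Agent.Q279.SC.J.FR

/-!
# The image of `E₄ E₆ / Δ` under a Hecke operator; job HECKE
-/

set_option autoImplicit false

noncomputable section

open UpperHalfPlane hiding I
open ModularForm MatrixGroups Filter Topology Function Real Complex EisensteinSeries
open scoped Manifold
open PowerSeries (coeff)

namespace Pool.Agent.Q237.SX

open Pool.Agent.Q279.SC

/-- `E₄ E₆ / Δ` -/
def ff (τ : ℍ) : ℂ := E₄ τ * E₆ τ / ModularForm.discriminant τ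

lemma mf_move {F : Type} [FunLike F ℍ ℂ] {k : ℤ} [SlashInvariantFormClass F 𝒮ℒ k] (f : F)
    (a b c d : ℤ) (hdet : a * d - b * c = 1) (z w : ℍ)
    (hw : (w : ℂ) * (c * z + d) = a * z + b) :
    f w = ((c : ℂ) * z + d) ^ k * f z ∧ (c : ℂ) * z + d ≠ 0 := by
  obtain ⟨γ, hγ⟩ : ∃ γ : SL(2, ℤ), (γ : Matrix (Fin 2) (Fin 2) ℤ) = !![a, b; c, d] :=
    ⟨⟨!![a, b; c, d], by rw [Matrix.det_fin_two_of]; exact hdet⟩, rfl⟩
  have h1 := SlashInvariantForm.slash_action_eqn'' (Γ := 𝒮ℒ) f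
    (γ := Matrix.SpecialLinearGroup.mapGL ℝ γ) ⟨γ, rfl⟩ z
  have hden : denom γ z = (c : ℂ) * z + d := by
    rw [ModularGroup.denom_apply, hγ]
    rfl
  have hne : (c : ℂ) * z + d ≠ 0 := by
    rw [← hden]
    exact denom_ne_zero _ _
  have hw' : γ • z = w := by
    ext
    rw [coe_specialLinearGroup_apply, hγ]
    simp only [algebraMap_int_eq, eq_intCast, Matrix.of_apply, Matrix.cons_val', Matrix.cons_val_zero,
      Matrix.cons_val_one, Matrix.cons_val_fin_one, Complex.ofReal_intCast]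
    rw [div_eq_iff hne, hw]
  refine ⟨?_, hne⟩
  rw [← hden, ← hw']
  exact h1

lemma ff_alg (A B C D : ℂ) (hC : C ≠ 0) (hD : D ≠ 0) :
    (D ^ 4 * A) * (D ^ 6 * B) / (D ^ 12 * C) * D ^ 2 = A * B / C := by
  field_simp

lemma zp4 (D : ℂ) : D ^ (4 : ℤ) = D ^ 4 := by norm_cast

lemma zp6 (D : ℂ) : D ^ (6 : ℤ) = D ^ 6 := by norm_cast

lemma zp12 (D : ℂ) : D ^ (12 : ℤ) = D ^ 12 := by norm_cast

lemma ff_move (a b c d : ℤ) (hdet : a * d - b * c = 1) (z w : ℍ)
    (hw : (w : ℂ) * (c * z + d) = a * z + b) : ff w * ((c : ℂ) * z + d) ^ 2 = ff z := by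
  obtain ⟨h4, hne⟩ := mf_move (k := 4) E₄ a b c d hdet z w hw
  obtain ⟨h6, -⟩ := mf_move (k := 6) E₆ a b c d hdet z w hw
  obtain ⟨hD, -⟩ := mf_move (k := 12) CuspForm.discriminant a b c d hdet z w hw
  rw [CuspForm.coe_discriminant] at hD
  have hz := discriminant_ne_zero z
  rw [zp4] at h4
  rw [zp6] at h6
  rw [zp12] at hD
  unfold ff
  rw [h4, h6, hD]
  exact ff_alg _ _ _ _ hz hne

variable {p : ℕ} [hp : Fact p.Prime]

lemma coe_S (τ : ℍ) : ((ModularGroup.S • τ : ℍ) : ℂ) = -(τ : ℂ)⁻¹ := by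
  rw [modular_S_smul]
  change (-(τ : ℂ))⁻¹ = _
  rw [inv_neg]

lemma p_ne : (p : ℂ) ≠ 0 := by exact_mod_cast hp.out.ne_zero

lemma move_mul (τ : ℍ) : ff (mulP p (ModularGroup.S • τ)) * (τ : ℂ) ^ 2 =
    (p : ℂ) ^ 2 * ff (divP p 0 τ) := by
  have hτ := ne_zero τ
  have hp0 := p_ne (p := p)
  have h := ff_move 0 (-1) 1 0 (by norm_num) (divP p 0 τ) (mulP p (ModularGroup.S • τ)) (by
    rw [coe_mulP, coe_S, coe_divP]
    push_cast
    field_simp
    ring)
  rw [← h, coe_divP]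
  push_cast
  field_simp
  ring

lemma move_div0 (τ : ℍ) : (p : ℂ) ^ 2 * ff (divP p 0 (ModularGroup.S • τ)) * (τ : ℂ) ^ 2 =
    ff (mulP p τ) := by
  have hτ := ne_zero τ
  have hp0 := p_ne (p := p)
  have h := ff_move 0 (-1) 1 0 (by norm_num) (mulP p τ) (divP p 0 (ModularGroup.S • τ)) (by
    rw [coe_mulP, coe_divP, coe_S]
    push_cast
    field_simp
    ring)
  rw [← h, coe_mulP]
  push_cast
  ring

/-- the involution of the residues -/
def ivb (p : ℕ) [Fact p.Prime] (b : ℕ) : ℕ := (-(b : ZMod p)⁻¹).val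

lemma ivb_cast (b : ℕ) : ((ivb p b : ℕ) : ZMod p) = -(b : ZMod p)⁻¹ := by
  unfold ivb
  rw [ZMod.natCast_val, ZMod.cast_id', id]

lemma cast_ne {b : ℕ} (h0 : b ≠ 0) (hb : b < p) : (b : ZMod p) ≠ 0 := by
  intro h
  rw [ZMod.natCast_eq_zero_iff] at h
  exact absurd (Nat.le_of_dvd (Nat.pos_of_ne_zero h0) h) (not_le.2 hb)

lemma ivb_lt (b : ℕ) : ivb p b < p := ZMod.val_lt _

lemma ivb_ne {b : ℕ} (h0 : b ≠ 0) (hb : b < p) : ivb p b ≠ 0 := by
  intro h
  have h1 := ivb_cast (p := p) b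
  rw [h, Nat.cast_zero] at h1
  exact (neg_ne_zero.2 (inv_ne_zero (cast_ne h0 hb))) h1.symm

lemma ivb_ivb {b : ℕ} (h0 : b ≠ 0) (hb : b < p) : ivb p (ivb p b) = b := by
  have h1 : ((ivb p (ivb p b) : ℕ) : ZMod p) = (b : ℕ) := by
    rw [ivb_cast, ivb_cast, inv_neg, inv_inv, neg_neg]
  have h2 := (ZMod.natCast_eq_natCast_iff' _ _ p).1 h1
  rwa [Nat.mod_eq_of_lt (ivb_lt _), Nat.mod_eq_of_lt hb] at h2

lemma move_div {b : ℕ} (h0 : b ≠ 0) (hb : b < p) (τ : ℍ) :
    ff (divP p b (ModularGroup.S • τ)) * (τ : ℂ) ^ 2 = ff (divP p (ivb p b) τ) := by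
  have hτ := ne_zero τ
  have hp0 := p_ne (p := p)
  obtain ⟨e, he⟩ : (p : ℤ) ∣ 1 + b * ivb p b := by
    rw [← ZMod.intCast_zmod_eq_zero_iff_dvd]
    push_cast
    rw [ivb_cast, mul_neg, mul_inv_cancel₀ (cast_ne h0 hb)]
    ring
  have heC : (1 + b * ivb p b : ℂ) = p * e := by exact_mod_cast he
  have h := ff_move b (-e) p (-(ivb p b : ℕ)) (by linear_combination (-1) * he) (divP p (ivb p b) τ)
    (divP p b (ModularGroup.S • τ)) (by
    rw [coe_divP, coe_divP, coe_S]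
    push_cast
    field_simp
    linear_combination (-(τ : ℂ)) * heC)
  rw [← h, coe_divP]
  push_cast
  field_simp
  ring

/-- `f(p τ) + p² ∑ f((τ + b) / p)` -/
def ph (p : ℕ) [Fact p.Prime] (τ : ℍ) : ℂ :=
  ff (mulP p τ) + (p : ℂ) ^ 2 * ∑ b ∈ Finset.range p, ff (divP p b τ)

lemma sum_split (G : ℕ → ℂ) : ∑ b ∈ Finset.range p, G b =
    G 0 + ∑ b ∈ (Finset.range p).erase 0, G b :=
  (Finset.add_sum_erase _ _ (Finset.mem_range.2 hp.out.pos)).symm

lemma ph_S (τ : ℍ) : ph p (ModularGroup.S • τ) * (τ : ℂ) ^ 2 = ph p τ := by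
  unfold ph
  rw [sum_split, sum_split]
  have h1 := move_mul (p := p) τ
  have h2 := move_div0 (p := p) τ
  have h3 : ∑ b ∈ (Finset.range p).erase 0, ff (divP p b (ModularGroup.S • τ)) * (τ : ℂ) ^ 2 =
      ∑ b ∈ (Finset.range p).erase 0, ff (divP p b τ) := by
    refine Finset.sum_nbij' (ivb p) (ivb p) ?_ ?_ ?_ ?_ ?_
    · intro b hb
      rw [Finset.mem_erase, Finset.mem_range] at hb ⊢
      exact ⟨ivb_ne hb.1 hb.2, ivb_lt b⟩
    · intro b hb
      rw [Finset.mem_erase, Finset.mem_range] at hb ⊢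
      exact ⟨ivb_ne hb.1 hb.2, ivb_lt b⟩
    · intro b hb
      rw [Finset.mem_erase, Finset.mem_range] at hb
      exact ivb_ivb hb.1 hb.2
    · intro b hb
      rw [Finset.mem_erase, Finset.mem_range] at hb
      exact ivb_ivb hb.1 hb.2
    · intro b hb
      rw [Finset.mem_erase, Finset.mem_range] at hb
      exact move_div hb.1 hb.2 τ
  rw [← Finset.sum_mul] at h3
  linear_combination h1 + h2 + (p : ℂ) ^ 2 * h3

/-- the form of weight `12 p - 2` -/
def bigF (p : ℕ) [Fact p.Prime] (τ : ℍ) : ℂ := ModularForm.discriminant τ ^ p * ph p τ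

lemma zp_alg (t D P : ℂ) (ht : t ≠ 0) (n m : ℕ) (h : n + 2 = 12 * m) :
    (t ^ 12 * D) ^ m * (P * (t ^ 2)⁻¹) * (t ^ n)⁻¹ = D ^ m * P := by
  have h1 : (t ^ 12) ^ m = t ^ n * t ^ 2 := by
    rw [← pow_mul, ← pow_add, h]
  rw [mul_pow, h1]
  field_simp

lemma bigF_S : (bigF p) ∣[((2 * (6 * p - 1) : ℕ) : ℤ)] ModularGroup.S = bigF p := by
  funext τ
  rw [ModularForm.SL_slash_apply]
  have hτ := ne_zero τ
  have hd : denom ModularGroup.S τ = (τ : ℂ) := by
    rw [ModularGroup.denom_S]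
  rw [hd, zpow_neg, zpow_natCast]
  unfold bigF
  have h1 := ph_S (p := p) τ
  have h2 : ph p (ModularGroup.S • τ) = ph p τ * ((τ : ℂ) ^ 2)⁻¹ := by
    rw [← h1]
    field_simp
  obtain ⟨h3, -⟩ := mf_move (k := 12) CuspForm.discriminant 0 (-1) 1 0 (by norm_num) τ
    (ModularGroup.S • τ) (by
      rw [coe_S]
      push_cast
      field_simp
      ring)
  rw [CuspForm.coe_discriminant, zp12] at h3
  rw [h2, h3]
  push_cast
  rw [one_mul, add_zero]
  exact zp_alg _ _ _ hτ _ _ (by have := hp.out.pos; omega)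

/-- the series of `E₄ E₆ q / Δ` -/
lemma hG {u : PowerSeries ℤ} (hu : zd * u = 1) :
    HQ (fun τ => E₄ τ * E₆ τ * (ModularForm.discriminant τ / qq τ)⁻¹)
      (PowerSeries.map (Int.castRingHom ℂ) (z4 * z6 * u)) := by
  have h1 : HQ (fun τ => ModularForm.discriminant τ / qq τ) (qd ℂ) := by
    have h := hqD
    rw [qD_X] at h
    exact h.divX
  have h2 : HQ (fun τ => (ModularForm.discriminant τ / qq τ)⁻¹)
      (PowerSeries.map (Int.castRingHom ℂ) u) := by
    refine h1.inv (fun τ => div_ne_zero (discriminant_ne_zero τ) (qq_ne τ)) ?_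
    unfold qd
    rw [← map_mul, hu, map_one]
  rw [map_mul, map_mul]
  exact (hq4.mul hq6).mul h2

lemma ff_eq (τ : ℍ) :
    ff τ = E₄ τ * E₆ τ * (ModularForm.discriminant τ / qq τ)⁻¹ / qq τ := by
  unfold ff
  have h1 := discriminant_ne_zero τ
  have h2 := qq_ne τ
  rw [inv_div]
  field_simp

/-- the coefficients of order `1` modulo `p` -/
def uS (p : ℕ) (u : PowerSeries ℤ) : PowerSeries ℤ :=
  PowerSeries.mk fun m => coeff (p * m + 1) (z4 * z6 * u)

lemma g0 {u : PowerSeries ℤ} (hu : zd * u = 1) : coeff 0 (z4 * z6 * u) = 1 := by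
  have h1 := congrArg (coeff 0) hu
  have hz : coeff 0 zd = 1 := by
    rw [PowerSeries.coeff_zero_eq_constantCoeff_apply]
    exact zd0
  rw [coeff0_mul, hz, one_mul, PowerSeries.coeff_one, if_pos rfl] at h1
  have h4 : coeff 0 z4 = 1 := by
    unfold z4
    have h := coeff_nat_mul 240 0 zA
    rw [Nat.cast_ofNat] at h
    rw [map_add, h, zA0, mul_zero, add_zero, PowerSeries.coeff_one, if_pos rfl]
  have h6 : coeff 0 z6 = 1 := by
    unfold z6
    have h := coeff_nat_mul 504 0 zB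
    rw [Nat.cast_ofNat] at h
    rw [map_sub, h, zB0, mul_zero, sub_zero, PowerSeries.coeff_one, if_pos rfl]
  rw [coeff0_mul, coeff0_mul, h4, h6, h1]
  norm_num

lemma hbig {u : PowerSeries ℤ} (hu : zd * u = 1) :
    HQ (bigF p) (PowerSeries.map (Int.castRingHom ℂ)
      (zd ^ p * fr p (z4 * z6 * u) + (p : PowerSeries ℤ) ^ 3 * PowerSeries.X ^ p * (zd ^ p *
        uS p u))) := by
  have hg := hG hu
  have h1 : HQ (fun τ => ModularForm.discriminant τ / qq τ) (qd ℂ) := by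
    have h := hqD
    rw [qD_X] at h
    exact h.divX
  have h2 := (h1.pow p).mul (hg.comp_mulP (p := p))
  have h3 := hg.shift
  have h4 := h3.up (p := p)
  have h5 := ((hqD.pow p).mul h4).smul ((p : ℂ) ^ 2)
  have h6 := h2.add h5
  have e : qd ℂ ^ p * fr p (PowerSeries.map (Int.castRingHom ℂ) (z4 * z6 * u)) +
      PowerSeries.C ((p : ℂ) ^ 2) * (qD ℂ ^ p * (PowerSeries.C (p : ℂ) * PowerSeries.mk fun m =>
        coeff (p * m) (PowerSeries.mk fun n => coeff (n + 1)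
          (PowerSeries.map (Int.castRingHom ℂ) (z4 * z6 * u))))) =
      PowerSeries.map (Int.castRingHom ℂ)
      (zd ^ p * fr p (z4 * z6 * u) + (p : PowerSeries ℤ) ^ 3 * PowerSeries.X ^ p * (zd ^ p *
        uS p u)) := by
    have e1 : (PowerSeries.mk fun m =>
        coeff (p * m) (PowerSeries.mk fun n => coeff (n + 1)
          (PowerSeries.map (Int.castRingHom ℂ) (z4 * z6 * u)))) =
        PowerSeries.map (Int.castRingHom ℂ) (uS p u) := by
      ext m
      rw [PowerSeries.coeff_mk, PowerSeries.coeff_mk, PowerSeries.coeff_map,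
        PowerSeries.coeff_map]
      unfold uS
      rw [PowerSeries.coeff_mk]
    have e2 : (PowerSeries.C (p : ℂ) : PowerSeries ℂ) = (p : PowerSeries ℂ) := map_natCast _ p
    have e3 := (Pool.Agent.Q279.SC.JFR.main p hp.out ℤ).2.2.2.2.2 ℂ (Int.castRingHom ℂ)
      (z4 * z6 * u)
    rw [e1, e3, qD_X, map_pow, e2]
    unfold qd
    simp only [map_add, map_mul, map_pow, map_natCast, PowerSeries.map_X]
    ring
  rw [e] at h6
  refine h6.congr fun τ => ?_
  have hq := qq_ne τ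
  have hc : coeff 0 (PowerSeries.map (Int.castRingHom ℂ) (z4 * z6 * u)) = 1 := by
    rw [PowerSeries.coeff_map, g0 hu, map_one]
  simp only [hc]
  have k1 : ∑ b ∈ Finset.range p, (E₄ (divP p b τ) * E₆ (divP p b τ) *
      (ModularForm.discriminant (divP p b τ) / qq (divP p b τ))⁻¹ - 1) / qq (divP p b τ) =
      ∑ b ∈ Finset.range p, ff (divP p b τ) := by
    have k2 := inv_sum (p := p) τ
    rw [← add_zero (∑ b ∈ Finset.range p, (E₄ (divP p b τ) * E₆ (divP p b τ) *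
      (ModularForm.discriminant (divP p b τ) / qq (divP p b τ))⁻¹ - 1) / qq (divP p b τ)),
      ← k2, ← Finset.sum_add_distrib]
    refine Finset.sum_congr rfl fun b _ => ?_
    rw [ff_eq, sub_div, one_div]
    ring
  rw [k1]
  unfold bigF ph
  have k3 := ff_eq (mulP p τ)
  have k4 := qq_mulP (p := p) τ
  rw [k4] at k3
  rw [k3, k4]
  rw [div_pow]
  field_simp

/-- Job HECKE. -/
theorem hecke : Hecke := by
  intro p hp h5
  haveI : Fact p.Prime := ⟨hp⟩
  obtain ⟨u, hu⟩ := zd_unit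
  refine ⟨zd ^ p * fr p (z4 * z6 * u) + (p : PowerSeries ℤ) ^ 3 * PowerSeries.X ^ p * (zd ^ p *
        uS p u), zd ^ p * uS p u * fr p zd, ?_, (hbig hu).toMF _ bigF_S, ?_⟩
  · have h1 := (Pool.Agent.Q279.SC.JFR.main p hp ℤ).1
    have h2 : fr p (z4 * z6 * u) * fr p zd = fr p (z4 * z6) := by
      rw [← h1]
      congr 1
      linear_combination (z4 * z6) * hu
    linear_combination zd ^ p * h2
  · intro m
    rw [HQ.q_toMF, PowerSeries.coeff_map]
    rfl

end Pool.Agent.Q237.SX
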