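import Pool.Agent.Q237.SX.Ram

/-!
# Ramanujan's differential equation for `E₂`; job RAM
-/

set_option autoImplicit false

noncomputable section

open UpperHalfPlane hiding I
open ModularForm MatrixGroups Filter Topology Function Real Complex EisensteinSeries
open scoped Manifold
open PowerSeries (coeff)

namespace Pool.Agent.Q237.SX

open Pool.Agent.Q279.SC

lemma div_der (c : ℂ) (w : ℂ) (hw : w ≠ 0) : HasDerivAt (fun w : ℂ => c / w) (-c / w ^ 2) w := by
  have h := (hasDerivAt_inv hw).const_mul c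
  have e : (fun w : ℂ => c / w) = fun w => c * w⁻¹ := by
    funext w
    rw [div_eq_mul_inv]
  rw [e]
  refine h.congr_deriv ?_
  rw [neg_div, div_eq_mul_inv]
  ring

lemma div_ev (c : ℂ) {w : ℂ} (hw : 0 < w.im) :
    ((fun z : ℍ => c / (z : ℂ)) ∘ ofComplex) =ᶠ[𝓝 w] fun w => c / w := by
  filter_upwards [isOpen_upperHalfPlaneSet.mem_nhds hw] with v hv
  rw [Function.comp_apply, ofComplex_apply_of_im_pos hv]

lemma div_md (c : ℂ) : MDiff (fun z : ℍ => c / (z : ℂ)) := by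
  rw [UpperHalfPlane.mdifferentiable_iff]
  intro w hw
  have hw0 : w ≠ 0 := by
    rintro rfl
    have h0 : (0 : ℝ) < (0 : ℂ).im := hw
    rw [Complex.zero_im] at h0
    exact lt_irrefl _ h0
  exact ((div_der c w hw0).differentiableAt.congr_of_eventuallyEq
    (div_ev c hw)).differentiableWithinAt

lemma div_nD (c : ℂ) (z : ℍ) : nD (fun z : ℍ => c / (z : ℂ)) z =
    (2 * π * I)⁻¹ * (-c / (z : ℂ) ^ 2) := by
  unfold nD Derivative.normalizedDerivOfComplex
  rw [(div_ev c z.im_pos).deriv_eq, (div_der c z (ne_zero z)).deriv]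

lemma e2_slash : E2 ∣[(2 : ℤ)] ModularGroup.S = E2 - fun z : ℍ => (6 * I / π) / (z : ℂ) := by
  rw [E2_slash_action]
  funext z
  have h1 := D2_S z
  simp only [Pi.sub_apply, Pi.smul_apply, smul_eq_mul, h1, riemannZeta_two]
  have hz := ne_zero z
  have hp : (π : ℂ) ≠ 0 := ofReal_ne_zero.2 Real.pi_ne_zero
  congr 1
  field_simp

lemma e2_nd (z : ℍ) : nD (E2 ∣[(2 : ℤ)] ModularGroup.S) z =
    nD E2 z - (2 * π * I)⁻¹ * (-(6 * I / π) / (z : ℂ) ^ 2) := by
  rw [e2_slash, nD, Derivative.normalizedDerivOfComplex_sub _ _ hq2.mdiff (div_md _),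
    Pi.sub_apply]
  congr 1
  exact div_nD _ z

lemma e2_inv : (fun τ => nD E2 τ - (12⁻¹ : ℂ) * (E2 τ * E2 τ)) ∣[((4 : ℕ) : ℤ)] ModularGroup.S =
    (fun τ => nD E2 τ - (12⁻¹ : ℂ) * (E2 τ * E2 τ)) := by
  funext z
  have h1 := congrFun (Derivative.normalizedDerivOfComplex_SL_slash (k := 2)
    (γ := ModularGroup.S) hq2.mdiff) z
  have h2 := e2_nd z
  have h3 := congrFun e2_slash z
  change nD (E2 ∣[(2 : ℤ)] ModularGroup.S) z = _ at h1
  rw [h2] at h1
  simp only [Pi.sub_apply] at h1 h3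
  rw [h3] at h1
  rw [ModularForm.SL_slash_apply] at h1 h3
  rw [ModularForm.SL_slash_apply]
  have hz := ne_zero z
  have hp : (π : ℂ) ≠ 0 := ofReal_ne_zero.2 Real.pi_ne_zero
  have hd : denom ModularGroup.S z = (z : ℂ) := by
    rw [ModularGroup.denom_S]
  have hS10 : ((ModularGroup.S : Matrix (Fin 2) (Fin 2) ℤ) 1 0 : ℤ) = 1 := rfl
  rw [hd] at h1 h3 ⊢
  have hinv : (2 * (π : ℂ) * I)⁻¹ = -(I * (π : ℂ)⁻¹) / 2 := by
    have hI : (I : ℂ) ≠ 0 := I_ne_zero
    field_simp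
    linear_combination I_sq
  have e1 : ((z : ℂ)) ^ (-(2 + 2) : ℤ) = (z : ℂ)⁻¹ ^ 4 := by
    rw [zpow_neg, inv_pow]
    norm_cast
  have e2 : ((z : ℂ)) ^ (-2 : ℤ) = (z : ℂ)⁻¹ ^ 2 := by
    rw [zpow_neg, inv_pow]
    norm_cast
  have e3 : ((z : ℂ)) ^ (-((4 : ℕ) : ℤ)) = (z : ℂ)⁻¹ ^ 4 := by
    rw [zpow_neg, inv_pow]
    norm_cast
  rw [e1, hinv, hS10] at h1
  rw [e2] at h3
  rw [e3]
  change (nD E2 (ModularGroup.S • z) - 12⁻¹ * (E2 (ModularGroup.S • z) *
    E2 (ModularGroup.S • z))) * (z : ℂ)⁻¹ ^ 4 = nD E2 z - 12⁻¹ * (E2 z * E2 z)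
  change _ = nD E2 (ModularGroup.S • z) * (z : ℂ)⁻¹ ^ 4 - _ at h1
  simp only [div_eq_mul_inv, ← inv_pow] at h1 h3
  generalize nD E2 (ModularGroup.S • z) = A at h1 ⊢
  generalize E2 (ModularGroup.S • z) = B at h3 ⊢
  generalize nD E2 z = N at h1 ⊢
  generalize E2 z = P at h1 h3 ⊢
  generalize (z : ℂ)⁻¹ = u at h1 h3 ⊢
  generalize (π : ℂ)⁻¹ = v at h1 h3 ⊢
  push_cast at h1
  have h5 : B * B * u ^ 4 = (P - 6 * I * v * u) * (P - 6 * I * v * u) := by
    rw [← h3]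
    ring
  linear_combination (-1) * h1 - (1 / 12) * h5

/-- the derivative of `E₂` -/
theorem th2 : 12 * th (q2 ℂ) = q2 ℂ ^ 2 - q4 ℂ := by
  have h1 : HQ (fun τ => nD E2 τ - (12⁻¹ : ℂ) * (E2 τ * E2 τ))
      (th (q2 ℂ) - PowerSeries.C 12⁻¹ * (q2 ℂ * q2 ℂ)) :=
    hq2.der.sub ((hq2.mul hq2).smul _)
  have h5 : HQ (⇑(h1.toMF _ e2_inv + (12⁻¹ : ℂ) • (E₄ : ModularForm 𝒮ℒ ((4 : ℕ) : ℤ))))
      (th (q2 ℂ) - PowerSeries.C 12⁻¹ * (q2 ℂ * q2 ℂ) + PowerSeries.C 12⁻¹ * q4 ℂ) :=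
    (h1.add (hq4.smul 12⁻¹)).congr fun τ => rfl
  have h6 := small_zero (by norm_num) _ h5 (by
    rw [map_add, map_sub, coeff0_th, PowerSeries.coeff_C_mul, PowerSeries.coeff_C_mul,
      coeff0_mul, coeff_q2, coeff_q4]
    simp)
  have h7 : (12 : PowerSeries ℂ) * PowerSeries.C 12⁻¹ = 1 := by
    have : (12 : PowerSeries ℂ) = PowerSeries.C (12 : ℂ) := (map_ofNat PowerSeries.C 12).symm
    rw [this, ← map_mul, mul_inv_cancel₀ (by norm_num), map_one]
  linear_combination 12 * h6 + (q2 ℂ ^ 2 - q4 ℂ) * h7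

lemma th_map {R S : Type} [CommRing R] [CommRing S] (φ : R →+* S) (f : PowerSeries R) :
    th (PowerSeries.map φ f) = PowerSeries.map φ (th f) := by
  ext m
  unfold th
  rw [PowerSeries.coeff_mk, PowerSeries.coeff_map, PowerSeries.coeff_map, PowerSeries.coeff_mk,
    map_mul, map_natCast]

lemma map_inj : Function.Injective (PowerSeries.map (Int.castRingHom ℂ)) := by
  intro f g h
  ext m
  have h1 := congrArg (coeff m) h
  rw [PowerSeries.coeff_map, PowerSeries.coeff_map] at h1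
  simpa using h1

theorem z_th2 : 12 * th z2 = z2 ^ 2 - z4 := by
  apply map_inj
  have h := th2
  unfold q2 q4 at h
  rw [map_mul, ← th_map, map_sub, map_pow, map_ofNat]
  exact h

theorem z_th4 : 3 * th z4 = z2 * z4 - z6 := by
  apply map_inj
  have h := th4
  unfold q2 q4 q6 at h
  rw [map_mul, ← th_map, map_sub, map_mul, map_ofNat]
  exact h

theorem z_th6 : 2 * th z6 = z2 * z6 - z4 ^ 2 := by
  apply map_inj
  have h := th6
  unfold q2 q4 q6 at h
  rw [map_mul, ← th_map, map_sub, map_mul, map_pow, map_ofNat]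
  exact h

lemma th_mul {R : Type} [CommRing R] (f g : PowerSeries R) :
    th (f * g) = th f * g + f * th g := by
  have h : ∀ f : PowerSeries R, th f = PowerSeries.X * PowerSeries.derivative R f := by
    intro f
    ext m
    unfold th
    rw [PowerSeries.coeff_mk]
    rcases m with _ | m
    · simp
    · rw [PowerSeries.coeff_succ_X_mul, PowerSeries.coeff_derivative]
      push_cast
      ring
  rw [h, h, h, Derivation.leibniz]
  simp only [smul_eq_mul]
  ring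

lemma th_sub {R : Type} [CommRing R] (f g : PowerSeries R) : th (f - g) = th f - th g := by
  ext m
  unfold th
  rw [map_sub, PowerSeries.coeff_mk, PowerSeries.coeff_mk, PowerSeries.coeff_mk, map_sub]
  ring

lemma th_nat {R : Type} [CommRing R] (c : ℕ) (f : PowerSeries R) :
    th ((c : PowerSeries R) * f) = c * th f := by
  ext m
  rw [coeff_nat_mul]
  unfold th
  rw [PowerSeries.coeff_mk, PowerSeries.coeff_mk, coeff_nat_mul]
  ring

lemma dvd12 (d : ℤ) : (12 : ℤ) ∣ 5 * d ^ 3 + 7 * d ^ 5 := by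
  have h : ∀ x : ZMod 12, 5 * x ^ 3 + 7 * x ^ 5 = 0 := by decide
  have h1 := h (d : ZMod 12)
  have h2 : ((5 * d ^ 3 + 7 * d ^ 5 : ℤ) : ZMod 12) = 0 := by
    push_cast
    exact h1
  exact (ZMod.intCast_zmod_eq_zero_iff_dvd _ 12).1 h2

lemma zQ_eq : 12 * zQ = 5 * zA + 7 * zB := by
  ext m
  have h12 := coeff_nat_mul 12 m zQ
  have h5 := coeff_nat_mul 5 m zA
  have h7 := coeff_nat_mul 7 m zB
  rw [Nat.cast_ofNat] at h12 h5 h7
  rw [map_add, h12, h5, h7]
  unfold zQ zA zB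
  rw [PowerSeries.coeff_mk, PowerSeries.coeff_mk, PowerSeries.coeff_mk]
  push_cast
  rw [Finset.mul_sum, Finset.mul_sum, Finset.mul_sum, ← Finset.sum_add_distrib]
  refine Finset.sum_congr rfl fun d _ => ?_
  exact Int.mul_ediv_cancel' (dvd12 d)

theorem zD_eq : 1728 * zD = z4 ^ 3 - z6 ^ 2 := by
  unfold zD z4 z6
  linear_combination 144 * zQ_eq

lemma zQ0 : coeff 0 zQ = 0 := by
  unfold zQ
  rw [PowerSeries.coeff_mk, Nat.divisors_zero, Finset.sum_empty]

lemma zA0 : coeff 0 zA = 0 := by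
  unfold zA
  rw [PowerSeries.coeff_mk, Nat.divisors_zero, Finset.sum_empty, Nat.cast_zero]

lemma zB0 : coeff 0 zB = 0 := by
  unfold zB
  rw [PowerSeries.coeff_mk, Nat.divisors_zero, Finset.sum_empty, Nat.cast_zero]

theorem zD_X : zD = PowerSeries.X * zd := by
  ext m
  rcases m with _ | m
  · rw [PowerSeries.coeff_zero_X_mul]
    unfold zD
    have h1 := zQ0
    have h2 := zA0
    have h3 := zB0
    rw [PowerSeries.coeff_zero_eq_constantCoeff_apply] at h1 h2 h3 ⊢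
    simp [h1, h2, h3]
  · rw [PowerSeries.coeff_succ_X_mul]
    unfold zd
    rw [PowerSeries.coeff_mk]

lemma coeff1_mul {R : Type} [CommRing R] (f g : PowerSeries R) :
    coeff 1 (f * g) = coeff 0 f * coeff 1 g + coeff 1 f * coeff 0 g := by
  rw [PowerSeries.coeff_mul, Finset.Nat.antidiagonal_succ]
  simp

theorem zd0 : PowerSeries.constantCoeff zd = 1 := by
  rw [← PowerSeries.coeff_zero_eq_constantCoeff_apply]
  unfold zd
  rw [PowerSeries.coeff_mk]
  unfold zD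
  have h1 : coeff 1 zQ = 1 := by
    unfold zQ
    rw [PowerSeries.coeff_mk, Nat.divisors_one, Finset.sum_singleton]
    norm_num
  have h2 : coeff 1 (zA ^ 2) = 0 := by
    rw [pow_two, coeff1_mul, zA0, zero_mul, mul_zero, add_zero]
  have h3 : coeff 1 (zA ^ 3) = 0 := by
    rw [pow_succ, coeff1_mul, h2, zA0, mul_zero, add_zero, pow_two, coeff0_mul, zA0, zero_mul,
      zero_mul]
  have h4 : coeff 1 (zB ^ 2) = 0 := by
    rw [pow_two, coeff1_mul, zB0, zero_mul, mul_zero, add_zero]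
  have k1 := coeff_nat_mul 100 1 (zA ^ 2)
  have k2 := coeff_nat_mul 8000 1 (zA ^ 3)
  have k3 := coeff_nat_mul 147 1 (zB ^ 2)
  rw [Nat.cast_ofNat] at k1 k2 k3
  rw [map_sub, map_add, map_add, k1, k2, k3, h1, h2, h3, h4]
  norm_num

lemma z_nat_inj {c : ℕ} (hc : c ≠ 0) {f g : PowerSeries ℤ}
    (h : (c : PowerSeries ℤ) * f = c * g) : f = g := by
  ext m
  have h1 := congrArg (coeff m) h
  rw [coeff_nat_mul, coeff_nat_mul] at h1
  exact mul_left_cancel₀ (by exact_mod_cast hc) h1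

theorem z_thD : th zD = z2 * zD := by
  apply z_nat_inj (c := 1728) (by norm_num)
  rw [← th_nat, Nat.cast_ofNat, zD_eq, th_sub]
  have h1 : th (z4 ^ 3) = 3 * z4 ^ 2 * th z4 := by
    rw [pow_succ, pow_two, th_mul, th_mul]
    ring
  have h2 : th (z6 ^ 2) = 2 * z6 * th z6 := by
    rw [pow_two, th_mul]
    ring
  rw [h1, h2]
  linear_combination z4 ^ 2 * z_th4 - z6 * z_th6 - z2 * zD_eq

/-- Job RAM -/
theorem ram : Ram := ⟨zD_eq, zD_X, zd0, z_th2, z_th4, z_th6, z_thD⟩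

end Pool.Agent.Q237.SX
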